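import Pool.Agent.Helper98_PP.StmtsR2b

/-!
Squad PP, module PIP: the irreducible modular characters of a direct power.
-/

open scoped BigOperators

noncomputable section

namespace Pool.Agent.PP.H51

open Pool.Agent.Helper51_AWC Pool.Agent.Helper79_WRA Pool.Agent.PP

theorem isIrr_comp {F G H : Type} [Field F] [Group G] [Group H] (e : G ≃* H) {n : ℕ}
    {ρ : H →* Matrix (Fin n) (Fin n) F} (h : IsIrr ρ) : IsIrr (ρ.comp e.toMonoidHom) := by
  refine ⟨h.1, ?_⟩
  have : Set.range (ρ.comp e.toMonoidHom) = Set.range ρ := by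
    ext A
    constructor
    · rintro ⟨g, rfl⟩
      exact ⟨e g, rfl⟩
    · rintro ⟨y, rfl⟩
      refine ⟨e.symm y, ?_⟩
      show ρ (e (e.symm y)) = ρ y
      rw [e.apply_symm_apply]
  rw [this]
  exact h.2

theorem ibr_equiv {F G H : Type} [Field F] [Group G] [Group H] (e : G ≃* H) {φ : H → F}
    (h : φ ∈ IBr F H) : (fun g => φ (e g)) ∈ IBr F G := by
  obtain ⟨n, ρ, hρ, rfl⟩ := h
  exact ⟨n, ρ.comp e.toMonoidHom, isIrr_comp e hρ, rfl⟩

theorem ibr_one {F G : Type} [Field F] [Group G] : (fun _ : G => (1 : F)) ∈ IBr F G := by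
  refine ⟨1, 1, ⟨one_pos, ?_⟩, ?_⟩
  · rw [eq_top_iff]
    intro A _
    have hA : A = A 0 0 • (1 : G →* Matrix (Fin 1) (Fin 1) F) 1 := by
      ext i j
      rw [Subsingleton.elim i 0, Subsingleton.elim j 0]
      simp
    rw [hA]
    exact Submodule.smul_mem _ _ (Submodule.subset_span ⟨1, rfl⟩)
  · funext x
    show (1 : F) = Matrix.trace (1 : Matrix (Fin 1) (Fin 1) F)
    simp

theorem ibr_trivial {F G : Type} [Field F] [Group G] [Subsingleton G] {φ : G → F}
    (h : φ ∈ IBr F G) : φ = fun _ => 1 := by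
  obtain ⟨n, ρ, ⟨hn, hs⟩, rfl⟩ := h
  have h1 : Set.range ρ = {1} := by
    ext A
    rw [Set.mem_singleton_iff]
    constructor
    · rintro ⟨g, rfl⟩
      rw [Subsingleton.elim g 1, map_one]
    · rintro rfl
      exact ⟨1, map_one ρ⟩
  have h2 : Module.finrank F (Matrix (Fin n) (Fin n) F) ≤ 1 := by
    rw [← finrank_top F, ← hs, h1]
    have h5 := finrank_span_finset_le_card (R := F) ({1} : Finset (Matrix (Fin n) (Fin n) F))
    rw [Finset.coe_singleton, Finset.card_singleton] at h5
    exact h5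
  rw [Module.finrank_matrix, Fintype.card_fin, Module.finrank_self, mul_one] at h2
  have h3 : n = 1 := by
    have := Nat.le_of_mul_le_mul_left (h2.trans (by omega : 1 ≤ n * 1)) hn
    omega
  subst h3
  funext x
  show Matrix.trace (ρ x) = 1
  rw [Subsingleton.elim x 1, map_one]
  simp

/-- `L^(q+1) = L × L^q` -/
def powE (L : Type) [Group L] (q : ℕ) : (Fin (q + 1) → L) ≃* L × (Fin q → L) where
  toFun x := (x 0, fun i => x i.succ)
  invFun p := Fin.cons p.1 p.2
  left_inv x := by
    funext i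
    refine Fin.cases ?_ (fun j => ?_) i
    · rfl
    · rfl
  right_inv p := rfl
  map_mul' x y := rfl

theorem pip (hPib : PibStmt) : PipStmt := by
  intro ℓ F _ hF L _ _ q
  induction q with
  | zero =>
    refine ⟨fun φ _ => ?_, fun φ hφ => ?_, fun φ ψ _ _ _ => Subsingleton.elim _ _⟩
    · have : (fun x : Fin 0 → L => ∏ j, φ j (x j)) = fun _ => 1 := by
        funext x
        exact Finset.prod_empty
      rw [this]
      exact ibr_one
    · refine ⟨fun _ _ => 1, fun j => j.elim0, ?_⟩
      rw [ibr_trivial hφ]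
      funext x
      exact Finset.prod_empty.symm
  | succ q ih =>
    obtain ⟨i1, i2, i3⟩ := ih
    obtain ⟨-, p1, p2, p3⟩ := hPib ℓ F hF L (Fin q → L)
    refine ⟨fun φ hφ => ?_, fun φ hφ => ?_, fun φ ψ hφ hψ h => ?_⟩
    · have h1 := p1 (φ 0) (hφ 0) _ (i1 (fun j => φ j.succ) fun j => hφ _)
      have h2 := ibr_equiv (powE L q) h1
      have h3 : (fun x : Fin (q + 1) → L => ∏ j, φ j (x j)) = fun x => φ 0 ((powE L q) x).1 *
          ∏ j, φ (Fin.succ j) (((powE L q) x).2 j) := by
        funext x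
        exact Fin.prod_univ_succ fun j => φ j (x j)
      rw [h3]
      exact h2
    · have h1 := ibr_equiv (powE L q).symm hφ
      obtain ⟨φ₁, h2, φ₂, h3, h4⟩ := p2 _ h1
      obtain ⟨φs, h5, h6⟩ := i2 φ₂ h3
      refine ⟨Fin.cons φ₁ φs, ?_, ?_⟩
      · intro j
        refine Fin.cases ?_ (fun i => ?_) j
        · exact h2
        · exact h5 i
      · funext x
        have h7 := congrFun h4 ((powE L q) x)
        simp only [MulEquiv.symm_apply_apply] at h7
        rw [h7, h6, Fin.prod_univ_succ]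
        rfl
    · have h1 : ∀ (a : L) (y : Fin q → L), φ 0 a * ∏ j, φ (Fin.succ j) (y j) =
          ψ 0 a * ∏ j, ψ (Fin.succ j) (y j) := by
        intro a y
        have := h (Fin.cons a y)
        rw [Fin.prod_univ_succ, Fin.prod_univ_succ] at this
        exact this
      obtain ⟨h2, h3⟩ := p3 (φ 0) (hφ 0) _ (i1 (fun j => φ j.succ) fun j => hφ _) (ψ 0) (hψ 0) _
        (i1 (fun j => ψ j.succ) fun j => hψ _) h1
      have h4 := i3 (fun j => φ j.succ) (fun j => ψ j.succ) (fun j => hφ _) (fun j => hψ _)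
        fun x => congrFun h3 x
      funext j
      refine Fin.cases ?_ (fun i => ?_) j
      · exact h2
      · exact congrFun h4 i

end Pool.Agent.PP.H51
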