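import Pool.Agent.Helper74_PP.LqStmts

/-!
# Squad PP, part LQ, module LQM: the class functions vanishing on a normal subgroup
-/

open scoped BigOperators Classical
open Polynomial

noncomputable section

namespace Pool.Agent.PP.H51

open Pool.Agent.PP Pool.Agent.Helper51_AWC Pool.Agent.Helper79_WRA Pool.Agent.PP.H50

section mat

variable {H : Type} [Group H]

/-- the classes outside `L` -/
abbrev TL (L : Subgroup H) : Type := {c : ConjClasses H // Quotient.out c ∉ L}

theorem out_mem {L : Subgroup H} (hL : L.Normal) (x : H) :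
    Quotient.out (ConjClasses.mk x) ∉ L ↔ x ∉ L := by
  obtain ⟨h, hh⟩ := exists_out x
  rw [← hh, not_iff_not]
  constructor
  · intro h1
    have h2 := hL.conj_mem _ h1 h⁻¹
    have h3 : h⁻¹ * (h * x * h⁻¹) * h⁻¹⁻¹ = x := by group
    rwa [h3] at h2
  · intro h1
    exact hL.conj_mem x h1 h

/-- extension by zero -/
def JJ {R : Type} [CommRing R] (L : Subgroup H) : (TL L → R) →ₗ[R] (ConjClasses H → R) where
  toFun g c := if h : Quotient.out c ∉ L then g ⟨c, h⟩ else 0
  map_add' a b := by
    funext c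
    by_cases h : Quotient.out c ∉ L
    · simp only [dif_pos h, Pi.add_apply]
    · simp only [dif_neg h, Pi.add_apply, add_zero]
  map_smul' r a := by
    funext c
    by_cases h : Quotient.out c ∉ L
    · simp only [dif_pos h, Pi.smul_apply, RingHom.id_apply]
    · simp only [dif_neg h, Pi.smul_apply, RingHom.id_apply, smul_zero]

theorem JJ_mem {R : Type} [CommRing R] {L : Subgroup H} (g : TL L → R) {c : ConjClasses H}
    (h : Quotient.out c ∉ L) : JJ L g c = g ⟨c, h⟩ := dif_pos h

theorem JJ_not {R : Type} [CommRing R] {L : Subgroup H} (g : TL L → R) {c : ConjClasses H}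
    (h : Quotient.out c ∈ L) : JJ L g c = 0 := dif_neg (not_not.2 h)

theorem JJ_inj {R : Type} [CommRing R] (L : Subgroup H) :
    Function.Injective (JJ (R := R) L) := by
  intro a b hab
  funext c
  have h1 := congrFun hab c.1
  rwa [JJ_mem a c.2, JJ_mem b c.2] at h1

variable [Fintype H] [Fintype (ConjClasses H)] [DecidableEq (ConjClasses H)]

/-- the matrix of a class function on the class functions vanishing on `L` -/
def MO {R : Type} [CommRing R] (L : Subgroup H) (a : H → R) : Matrix (TL L) (TL L) R :=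
  fun c c' => NN a c c'

omit [Fintype H] [DecidableEq (ConjClasses H)] in
theorem sum_JJ {R : Type} [CommRing R] {L : Subgroup H} (g : TL L → R) (f : ConjClasses H → R) :
    ∑ c, f c * JJ L g c = ∑ c : TL L, f c * g c := by
  rw [← Finset.sum_filter_add_sum_filter_not Finset.univ (fun c : ConjClasses H =>
    Quotient.out c ∉ L)]
  rw [Finset.sum_eq_zero (s := Finset.univ.filter (fun c : ConjClasses H =>
    ¬ Quotient.out c ∉ L)), add_zero]
  · rw [Finset.sum_subtype (p := fun c : ConjClasses H => Quotient.out c ∉ L)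
      (Finset.univ.filter (fun c : ConjClasses H => Quotient.out c ∉ L)) (by
        intro c
        rw [Finset.mem_filter]
        exact ⟨fun h => h.2, fun h => ⟨Finset.mem_univ _, h⟩⟩)]
    refine Finset.sum_congr rfl fun c _ => ?_
    rw [JJ_mem g c.2]
  · intro c hc
    rw [JJ_not g (not_not.1 (Finset.mem_filter.1 hc).2), mul_zero]

theorem MO_JJ {R : Type} [CommRing R] {L : Subgroup H} (hL : L.Normal) {a : H → R}
    (ha : ∀ x, x ∉ L → a x = 0) (g : TL L → R) :
    (NN a).mulVec (JJ L g) = JJ L ((MO L a).mulVec g) := by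
  funext c
  by_cases h : Quotient.out c ∉ L
  · rw [JJ_mem _ h]
    exact sum_JJ g (fun c' => NN a c c')
  · rw [JJ_not _ (not_not.1 h), NN_mulVec]
    refine Finset.sum_eq_zero fun t _ => ?_
    by_cases ht : t ∈ L
    · have h1 : t * Quotient.out c ∈ L := L.mul_mem ht (not_not.1 h)
      rw [JJ_not, mul_zero]
      by_contra h2
      exact (out_mem hL _).1 h2 h1
    · rw [ha t ht, zero_mul]

/-- embedding in the functions -/
def KK (F : Type) [Field F] (L : Subgroup H) : (TL L → F) →ₗ[F] (H → F) :=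
  (LinearMap.funLeft F F (ConjClasses.mk (α := H))).comp (JJ L)

omit [Fintype H] [Fintype (ConjClasses H)] [DecidableEq (ConjClasses H)] in
theorem KK_inj (F : Type) [Field F] (L : Subgroup H) : Function.Injective (KK F L) :=
  (LinearMap.funLeft_injective_of_surjective F F _ ConjClasses.mk_surjective).comp (JJ_inj L)

omit [Fintype H] [Fintype (ConjClasses H)] [DecidableEq (ConjClasses H)] in
theorem cfsO_eq (F : Type) [Field F] {L : Subgroup H} (hL : L.Normal) :
    cfsO F L = LinearMap.range (KK F L) := by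
  ext f
  constructor
  · rintro ⟨hf, hf'⟩
    refine ⟨fun c => f (Quotient.out c.1), ?_⟩
    funext x
    change JJ L (fun c : TL L => f (Quotient.out c.1)) (ConjClasses.mk x) = f x
    obtain ⟨h, hh⟩ := exists_out x
    by_cases hx : x ∈ L
    · rw [hf' x hx, JJ_not]
      rw [← hh]
      exact hL.conj_mem x hx h
    · rw [JJ_mem _ ((out_mem hL x).2 hx)]
      rw [← hh]
      exact hf x h
  · rintro ⟨g, rfl⟩
    refine ⟨?_, ?_⟩
    · intro x y
      change JJ L g (ConjClasses.mk (y * x * y⁻¹)) = JJ L g (ConjClasses.mk x)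
      refine congrArg (JJ L g) ?_
      rw [ConjClasses.mk_eq_mk_iff_isConj]
      exact (isConj_iff.2 ⟨y, rfl⟩ : IsConj x _).symm
    · intro x hx
      change JJ L g (ConjClasses.mk x) = 0
      rw [JJ_not]
      by_contra h2
      exact (out_mem hL _).1 h2 hx

theorem actF_KK {F : Type} [Field F] {L : Subgroup H} (hL : L.Normal) {a : H → F} (hc : IsCl a)
    (ha : ∀ x, x ∉ L → a x = 0) (g : TL L → F) :
    actF a (KK F L g) = KK F L ((MO L a).mulVec g) := by
  have h1 := actF_mk hc (JJ L g)
  rw [MO_JJ hL ha] at h1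
  exact h1

theorem rkO_eq {F : Type} [Field F] {L : Subgroup H} (hL : L.Normal) {a : H → F} (hc : IsCl a)
    (ha : ∀ x, x ∉ L → a x = 0) : rk a (cfsO F L) = (MO L a).rank := by
  classical
  rw [rk, cfsO_eq F hL, ← LinearMap.range_comp]
  have h1 : (actL a).comp (KK F L) = (KK F L).comp (MO L a).mulVecLin := by
    apply LinearMap.ext
    intro g
    exact actF_KK hL hc ha g
  rw [h1, LinearMap.range_comp, Matrix.rank]
  exact (Submodule.equivMapOfInjective _ (KK_inj F L) _).finrank_eq.symm

theorem MO_idem {F : Type} [Field F] {L : Subgroup H} (hL : L.Normal) {e : H → F} (he : IsIdem e)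
    (ha : ∀ x, x ∉ L → e x = 0) : MO L e * MO L e = MO L e := by
  classical
  apply Matrix.ext_of_mulVec_single
  intro i
  rw [← Matrix.mulVec_mulVec]
  apply KK_inj F L
  rw [← actF_KK hL he.1 ha, ← actF_KK hL he.1 ha, ← actF_mulF, he.2]

omit [Fintype (ConjClasses H)] in
theorem MO_map {R S : Type} [CommRing R] [CommRing S] (L : Subgroup H) (f : R →+* S) (a : H → R) :
    (MO L a).map f = MO L (fun t => f (a t)) := by
  ext c c'
  exact congrFun (congrFun (NN_map f a) c.1) c'.1

end mat

section chi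

variable {H : Type} [Group H] [Fintype H] [Fintype (ConjClasses H)] [DecidableEq (ConjClasses H)]

theorem MO_eigen {L : Subgroup H} (hL : L.Normal) {z χ : H → ℂ}
    (hz : ∀ x y, z (y * x * y⁻¹) = z x) (hz' : ∀ x, x ∉ L → z x = 0) (hχ : χ ∈ Irr H) :
    (MO L z).mulVec (fun c : TL L => χ (Quotient.out c.1)) =
      om z χ • (fun c : TL L => χ (Quotient.out c.1)) := by
  classical
  apply JJ_inj L
  rw [← MO_JJ hL hz']
  funext c
  by_cases h : Quotient.out c ∉ L
  · rw [JJ_mem _ h, NN_mulVec]
    change _ = om z χ * χ (Quotient.out c)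
    rw [← eigen hz hχ]
    refine Finset.sum_congr rfl fun t _ => ?_
    by_cases ht : t ∈ L
    · have h1 : t * Quotient.out c ∉ L := by
        intro h2
        apply h
        have h3 := L.mul_mem (L.inv_mem ht) h2
        rwa [inv_mul_cancel_left] at h3
      rw [JJ_mem _ ((out_mem hL _).2 h1)]
      change z t * χ (Quotient.out (ConjClasses.mk (t * Quotient.out c))) = _
      obtain ⟨k, hk⟩ := exists_out (t * Quotient.out c)
      rw [← hk, irr_conj hχ]
    · rw [hz' t ht, zero_mul, zero_mul]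
  · rw [JJ_not _ (not_not.1 h), NN_mulVec]
    refine Finset.sum_eq_zero fun t _ => ?_
    by_cases ht : t ∈ L
    · have h1 : t * Quotient.out c ∈ L := L.mul_mem ht (not_not.1 h)
      rw [JJ_not, mul_zero]
      by_contra h2
      exact (out_mem hL _).1 h2 h1
    · rw [hz' t ht, zero_mul]

omit [Fintype (ConjClasses H)] [DecidableEq (ConjClasses H)] in
/-- a common eigenbasis -/
theorem exists_basis (L : Subgroup H) : ∃ (ι : Type) (_ : Fintype ι) (ψ : ι → (H → ℂ))
    (b : Module.Basis ι ℂ (TL L → ℂ)), (∀ i, ψ i ∈ Irr H) ∧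
      ∀ i, b i = fun c : TL L => ψ i (Quotient.out c.1) := by
  have := Fintype.ofFinite (Irr H)
  let v : Irr H → (TL L → ℂ) := fun χ c => (χ : H → ℂ) (Quotient.out c.1)
  have hsp : Submodule.span ℂ (Set.range v) = ⊤ := by
    rw [eq_top_iff]
    intro g _
    obtain ⟨m, h1⟩ := decomp (fun x => JJ L g (ConjClasses.mk x)) (by
      intro x y
      refine congrArg (JJ L g) ?_
      rw [ConjClasses.mk_eq_mk_iff_isConj]
      exact (isConj_iff.2 ⟨y, rfl⟩ : IsConj x _).symm)
    have h2 : g = ∑ χ : Irr H, m χ • v χ := by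
      funext c
      have h3 := congrFun h1 (Quotient.out c.1)
      have h4 : ConjClasses.mk (Quotient.out c.1) = c.1 := Quotient.out_eq c.1
      rw [h4, JJ_mem g c.2] at h3
      rw [h3, Finset.sum_apply, Finset.sum_apply]
      rfl
    rw [h2]
    apply Submodule.sum_mem
    intro χ _
    exact Submodule.smul_mem _ _ (Submodule.subset_span ⟨χ, rfl⟩)
  obtain ⟨κ, a, ha, hs, hi⟩ := exists_linearIndependent' ℂ v
  have hκ : Finite κ := Finite.of_injective a ha
  rw [hsp] at hs
  let b : Module.Basis κ ℂ (TL L → ℂ) := Module.Basis.mk hi (le_of_eq hs.symm)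
  refine ⟨κ, Fintype.ofFinite κ, fun i => (a i : H → ℂ), b, fun i => (a i).2, fun i => ?_⟩
  rw [Module.Basis.mk_apply]
  rfl

variable {L : Subgroup H} {ι : Type} [Fintype ι] [DecidableEq ι] {ψ : ι → (H → ℂ)}
  {b : Module.Basis ι ℂ (TL L → ℂ)}

theorem toMatrix_MO (hL : L.Normal) (hψ : ∀ i, ψ i ∈ Irr H)
    (hb : ∀ i, b i = fun c : TL L => ψ i (Quotient.out c.1)) {z : H → ℂ}
    (hz : ∀ x y, z (y * x * y⁻¹) = z x) (hz' : ∀ x, x ∉ L → z x = 0)
    [DecidableEq (TL L)] :
    LinearMap.toMatrix b b (Matrix.toLin' (MO L z)) =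
      Matrix.diagonal (fun i : ι => om z (ψ i)) := by
  ext i j
  rw [LinearMap.toMatrix_apply]
  have h3 : Matrix.toLin' (MO L z) (b j) = om z (ψ j) • b j := by
    rw [Matrix.toLin'_apply, hb]
    exact MO_eigen hL hz hz' (hψ j)
  rw [h3, map_smul, Module.Basis.repr_self, Finsupp.smul_apply, Matrix.diagonal_apply,
    Finsupp.single_apply, smul_eq_mul]
  by_cases h4 : j = i
  · subst h4
    rw [if_pos rfl, if_pos rfl, mul_one]
  · rw [if_neg h4, if_neg (Ne.symm h4), mul_zero]

theorem charpoly_MO (hL : L.Normal) (hψ : ∀ i, ψ i ∈ Irr H)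
    (hb : ∀ i, b i = fun c : TL L => ψ i (Quotient.out c.1)) {z : H → ℂ}
    (hz : ∀ x y, z (y * x * y⁻¹) = z x) (hz' : ∀ x, x ∉ L → z x = 0)
    [DecidableEq (TL L)] :
    (MO L z).charpoly = ∏ i, (X - C (om z (ψ i))) := by
  have h1 : (Matrix.toLin' (MO L z)).charpoly = (MO L z).charpoly := by
    rw [← LinearMap.charpoly_toMatrix (Matrix.toLin' (MO L z)) (Pi.basisFun ℂ (TL L))]
    congr 1
    exact LinearMap.toMatrix'_toLin' (MO L z)
  rw [← h1, ← LinearMap.charpoly_toMatrix (Matrix.toLin' (MO L z)) b,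
    toMatrix_MO hL hψ hb hz hz', Matrix.charpoly_diagonal]

theorem trace_MO (hL : L.Normal) (hψ : ∀ i, ψ i ∈ Irr H)
    (hb : ∀ i, b i = fun c : TL L => ψ i (Quotient.out c.1)) {z : H → ℂ}
    (hz : ∀ x y, z (y * x * y⁻¹) = z x) (hz' : ∀ x, x ∉ L → z x = 0)
    [DecidableEq (TL L)] :
    ∑ c : TL L, NN z c.1 c.1 = ∑ i, om z (ψ i) := by
  have h1 : LinearMap.trace ℂ _ (Matrix.toLin' (MO L z)) = (MO L z).trace :=
    Matrix.trace_toLin'_eq (MO L z)
  have h2 : LinearMap.trace ℂ _ (Matrix.toLin' (MO L z)) =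
      (LinearMap.toMatrix b b (Matrix.toLin' (MO L z))).trace :=
    LinearMap.trace_eq_matrix_trace ℂ b _
  rw [toMatrix_MO hL hψ hb hz hz', Matrix.trace_diagonal, h1] at h2
  exact h2

end chi

attribute [local instance] Ideal.Quotient.field

section res

variable {H : Type} [Group H] [Fintype H] {M : Ideal (integralClosure ℤ ℂ)}

omit [Fintype H] in
theorem exists_lift' {L : Subgroup H} (hL : L.Normal) {e : H → FF M} (he : Cl e)
    (he' : ∀ x, x ∉ L → e x = 0) :
    ∃ a : H → integralClosure ℤ ℂ, Cl a ∧ (∀ t, Ideal.Quotient.mk M (a t) = e t) ∧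
      ∀ x, x ∉ L → a x = 0 := by
  classical
  obtain ⟨a, ha, ea⟩ := exists_lift (M := M) (b := e) he
  refine ⟨fun t => if t ∈ L then a t else 0, ?_, ?_, ?_⟩
  · intro x y
    have h1 : y * x * y⁻¹ ∈ L ↔ x ∈ L := by
      constructor
      · intro h
        have h2 := hL.conj_mem _ h y⁻¹
        have h3 : y⁻¹ * (y * x * y⁻¹) * y⁻¹⁻¹ = x := by group
        rwa [h3] at h2
      · intro h
        exact hL.conj_mem x h y
    simp only [h1, ha x y]
  · intro t
    by_cases h : t ∈ L
    · simp only [if_pos h, ea]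
    · simp only [if_neg h, map_zero, he' t h]
  · intro x hx
    exact if_neg hx

variable [hM : M.IsMaximal]

theorem rkO_card [Fintype (ConjClasses H)] [DecidableEq (ConjClasses H)] {L : Subgroup H}
    (hL : L.Normal) {ι : Type} [Fintype ι] {ψ : ι → (H → ℂ)}
    {b : Module.Basis ι ℂ (TL L → ℂ)} (hψ : ∀ i, ψ i ∈ Irr H)
    (hb : ∀ i, b i = fun c : TL L => ψ i (Quotient.out c.1)) {e : H → FF M} (he : IsIdem e)
    (he' : ∀ x, x ∉ L → e x = 0) :
    rk e (cfsO (FF M) L) = Nat.card {i // res M e (ψ i) = 1} := by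
  classical
  rw [rkO_eq hL he.1 he', rank_eq_rootMult (MO_idem hL he he')]
  obtain ⟨a, ha, ea, ha'⟩ := exists_lift' (M := M) hL he.1 he'
  have hr : ∀ i, IsIntegral ℤ (om (fun t => (a t : ℂ)) (ψ i)) :=
    fun i => (res_irr (M := M) a ha (hψ i)).2
  have h1 : (MO L a).charpoly = ∏ i, (X - C (⟨_, hr i⟩ : integralClosure ℤ ℂ)) := by
    have hinj : Function.Injective (algebraMap (integralClosure ℤ ℂ) ℂ) :=
      Subtype.val_injective
    apply Polynomial.map_injective _ hinj
    rw [← Matrix.charpoly_map, MO_map, Polynomial.map_prod]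
    have h2 := charpoly_MO (z := fun t => (a t : ℂ)) hL hψ hb (fun x y => by rw [ha])
      (fun x hx => by rw [ha' x hx]; rfl)
    refine Eq.trans h2 ?_
    refine Finset.prod_congr rfl fun i _ => ?_
    rw [Polynomial.map_sub, Polynomial.map_X, Polynomial.map_C]
    rfl
  have h2 : (MO L e).charpoly = ∏ i, (X - C (res M e (ψ i))) := by
    have h3 : MO L e = (MO L a).map (Ideal.Quotient.mk M) := by
      rw [MO_map]
      congr 1
      exact (funext ea).symm
    have h4 : (fun t => Ideal.Quotient.mk M (a t)) = e := funext ea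
    rw [h3, Matrix.charpoly_map, h1, Polynomial.map_prod]
    refine Finset.prod_congr rfl fun i _ => ?_
    rw [Polynomial.map_sub, Polynomial.map_X, Polynomial.map_C, ← h4,
      (res_irr (M := M) a ha (hψ i)).1, red_of (hr i)]
  have h5 : (∏ i, (X - C (res M e (ψ i)))).roots =
      Finset.univ.val.map (fun i => res M e (ψ i)) := by
    rw [Finset.prod_eq_multiset_prod]
    have h6 : Multiset.map (fun i => X - C (res M e (ψ i))) Finset.univ.val =
        Multiset.map (fun w : FF M => X - C w)
          (Multiset.map (fun i => res M e (ψ i)) Finset.univ.val) := by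
      rw [Multiset.map_map]
      rfl
    rw [h6, Polynomial.roots_multiset_prod_X_sub_C]
  rw [h2, ← Polynomial.count_roots, h5, Multiset.count_map, Nat.card_eq_fintype_card,
    Fintype.card_subtype]
  have h7 : Finset.univ.filter (fun i => res M e (ψ i) = 1) =
      Finset.univ.filter (fun i => 1 = res M e (ψ i)) := by
    refine Finset.filter_congr fun i _ => ?_
    exact eq_comm
  rw [h7]
  rfl

end res

/-- RKO: a common eigenbasis of the class functions vanishing on `L`. -/
theorem rko : Pool.Agent.PP.H74.RkoStmt := by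
  classical
  intro ℓ hl M hM hlM G _ _ _ L hL
  obtain ⟨ι, hι, ψ, b, hψ, hb⟩ := exists_basis L
  refine ⟨ι, hι, ψ, hψ, ?_, ?_⟩
  · intro z hz hz'
    rw [← trace_MO hL hψ hb hz hz']
    exact Finset.sum_subtype (p := fun c : ConjClasses G => Quotient.out c ∉ L) _ (by
        intro c
        rw [Finset.mem_filter]
        exact ⟨fun h => h.2, fun h => ⟨Finset.mem_univ _, h⟩⟩) _
  · intro a ha ha'
    exact rkO_card hL hψ hb ha ha'

end Pool.Agent.PP.H51
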